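import Mathlib
import Pool.Agent.H69.W.FirstP
import Pool.Agent.H81.W.WrZ

set_option autoImplicit false
set_option linter.unusedSectionVars false
set_option linter.unusedVariables false
open Finset

/-! # Paths in the half box are walks of the tiles near the row

`pth_wk` : a path `PthE` of the network `netS` of the random tiles in the half box is a walk `WK` through
tiles with labels in `EU` (above the row) or `EL` (below the row). -/

namespace Pool.Agent.H98.W.B6

open Pool.Agent.H69.M6b Pool.Agent.H69.M6b.World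
open Pool.Agent.H69.W Pool.Agent.H69.W.World
open Pool.Agent.H75.Perc Pool.Agent.H75.TwoArm Pool.Agent.Q1 Pool.Agent.H81.G1
open Pool.Agent.H30.Mid (RS rl HasRow ug mem_RS UW us uf uc ui)
open Pool.Agent.H30.W (WK z0 zr0 LayE XS)
open Pool.Agent.Q1.M6b.Gl (gE tr mem_tr)

/-! ### One step -/

section step
variable {X : Env} (x y : TI X × Dir) {L : Finset (ℤ × ℤ)}

/-- the end `z` of a random tile is the end `u` of the tile of the plane -/
def Same (z : TI X × Dir) (u : (ℤ × ℤ) × Dir) : Prop := z.1.1 = lbt u.1.1 u.1.2 ∧ z.2 = u.2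

/-- the wires between random neighbours -/
lemma same_pi {z : TI X × Dir} {u : (ℤ × ℤ) × Dir} (hz : Same z u)
    (hu : lbt (UW u).1.1 (UW u).1.2 ∈ X.E) : Same ((netS X x y).π z) (UW u) := by
  obtain ⟨⟨e, he⟩, d⟩ := z
  obtain ⟨⟨a, b⟩, d'⟩ := u
  obtain ⟨h1, h2⟩ := hz
  simp only at h1 h2
  subst h2
  subst h1
  cases d
  · -- W
    have hu' : lbt (a - 1) b ∈ X.E := hu
    have h3 := (adjE x y hu' he (by unfold lbt; refine Prod.ext ?_ ?_ <;> simp only <;> ring)).1
    have h4 : (netS X x y).π (⟨lbt a b, he⟩, .W) = (⟨lbt (a - 1) b, hu'⟩, .E) := by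
      rw [← h3, netS_inv]
    rw [h4]
    exact ⟨rfl, rfl⟩
  · -- N
    have hu' : lbt a (b + 1) ∈ X.E := hu
    have h3 := (adjN x y he hu' (by unfold lbt; refine Prod.ext ?_ ?_ <;> simp only <;> ring)).1
    rw [h3]
    exact ⟨rfl, rfl⟩
  · -- E
    have hu' : lbt (a + 1) b ∈ X.E := hu
    have h3 := (adjE x y he hu' (by unfold lbt; refine Prod.ext ?_ ?_ <;> simp only <;> ring)).1
    rw [h3]
    exact ⟨rfl, rfl⟩
  · -- S
    have hu' : lbt a (b - 1) ∈ X.E := hu
    have h3 := (adjN x y hu' he (by unfold lbt; refine Prod.ext ?_ ?_ <;> simp only <;> ring)).1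
    have h4 : (netS X x y).π (⟨lbt a b, he⟩, .S) = (⟨lbt a (b - 1), hu'⟩, .N) := by
      rw [← h3, netS_inv]
    rw [h4]
    exact ⟨rfl, rfl⟩

/-- the four neighbours are random -/
def Nb4 (X : Env) (u : ℤ × ℤ) : Prop := ∀ d, lbt (UW (u, d)).1.1 (UW (u, d)).1.2 ∈ X.E

/-- **One step.** -/
lemma same_step {z : TI X × Dir} {u : (ℤ × ℤ) × Dir} (hz : Same z u) (hu : Nb4 X u.1) :
    Same ((netS X x y).step (stt lbS pS L) z) (uf L u) := by
  have e1 : stt lbS pS L z.1 = us L u.1 := by
    unfold stt us lbS pS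
    rw [hz.1]
  have e2 : Same (z.1, Dir.mate (stt lbS pS L z.1) z.2) (u.1, Dir.mate (us L u.1) u.2) := by
    refine ⟨hz.1, ?_⟩
    rw [e1, hz.2]
  exact same_pi x y e2 (hu _)

/-- a path in a set of tiles with random neighbours -/
lemma same_iter {R : Set (TI X × Dir)} {z : TI X × Dir} {u : (ℤ × ℤ) × Dir} (hz : Same z u)
    (hR : ∀ z ∈ R, ∀ u : (ℤ × ℤ) × Dir, Same z u → Nb4 X u.1) {n : ℕ}
    (hn : ∀ i < n, ((netS X x y).step (stt lbS pS L))^[i] z ∈ R) :
    ∀ i ≤ n, Same (((netS X x y).step (stt lbS pS L))^[i] z) ((uf L)^[i] u) := by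
  intro i
  induction i with
  | zero => intro _; exact hz
  | succ i ih =>
    intro hi
    rw [Function.iterate_succ_apply', Function.iterate_succ_apply']
    have h1 := ih (by omega)
    exact same_step x y h1 (hR _ (hn i (by omega)) _ h1)

end step

/-! ### The box -/

section box
variable {X : Env} {N : ℕ} {xr y0 : ℤ} {κ : Type*} [Fintype κ] [DecidableEq κ] {l2 : κ → ℤ × ℤ}
  {EL EU ζ : Finset (ℤ × ℤ)} {c0 w h : ℕ}

lemma lo_of (L : LayE X N xr y0 l2 EL EU) {x y : ℤ} (hm : lbt x y ∈ gE EL EU (1, -1))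
    (hy : y < y0) : lbt x y ∈ EL := by
  rcases mem_union.1 hm with h1 | h1
  · exact h1
  · exfalso
    rw [mem_tr, lbt_sub] at h1
    have := L.upp _ h1
    rw [lbt_diff] at this
    omega

lemma hi_of (L : LayE X N xr y0 l2 EL EU) {x y : ℤ} (hm : lbt x y ∈ gE EL EU (1, -1))
    (hy : y0 ≤ y) : lbt x (y + 1) ∈ EU := by
  rcases mem_union.1 hm with h1 | h1
  · exfalso
    have := L.low _ h1
    rw [lbt_diff] at this
    omega
  · rw [mem_tr, lbt_sub] at h1
    exact h1

lemma subE (L : LayE X N xr y0 l2 EL EU) {e : ℤ × ℤ} (he : e ∈ EL ∪ EU) : e ∈ X.E :=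
  (mem_sdiff.1 (L.eq ▸ he : e ∈ X.E \ (RS N xr y0 ∪ XS l2))).1

/-- the tiles of the half box, with the margin -/
lemma half_mem (L : LayE X N xr y0 l2 EL EU) (G : GBox EL EU N xr y0 c0 w h) {e : Bool} {i j : ℤ}
    (h1 : -1 ≤ i) (h2 : i ≤ w) (h3 : 0 ≤ j) (h4 : j ≤ h) :
    lbt (xr + c0 + i) (if e then y0 + 1 + j else y0 - 1 - j) ∈ (if e then EU else EL) := by
  cases e
  · simp only [Bool.false_eq_true, if_false]
    refine lo_of L ?_ (by omega)
    have := G.box i (h - 1 - j) h1 h2 (by omega) (by omega)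
    have e1 : y0 - 1 - j = y0 - h + (h - 1 - j) := by ring
    rw [e1]; exact this
  · simp only [if_true]
    have := G.box i (h + j) h1 h2 (by omega) (by omega)
    have e1 : y0 - h + (h + j) = y0 + j := by ring
    rw [e1] at this
    have := hi_of L this (by omega)
    have e2 : y0 + 1 + j = y0 + j + 1 := by ring
    rw [e2]; exact this

/-- the height of the row `j` of the half box -/
def hh (y0 : ℤ) (e : Bool) (j : ℤ) : ℤ := if e then y0 + 1 + j else y0 - 1 - j

/-- all the neighbours of a tile of the half box are random -/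
lemma half_nb (L : LayE X N xr y0 l2 EL EU) (G : GBox EL EU N xr y0 c0 w h) {e : Bool} {i j : ℤ}
    (h1 : 0 ≤ i) (h2 : i < w) (h3 : 0 ≤ j) (h4 : j < h) : Nb4 X (xr + c0 + i, hh y0 e j) := by
  have key : ∀ i j : ℤ, -1 ≤ i → i ≤ w → 0 ≤ j → j ≤ h → lbt (xr + c0 + i) (hh y0 e j) ∈ X.E := by
    intro i j a1 a2 a3 a4
    refine subE L ?_
    have := half_mem L G (e := e) a1 a2 a3 a4
    cases e
    · exact mem_union_left _ (by simpa [hh] using this)
    · exact mem_union_right _ (by simpa [hh] using this)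
  -- towards the row
  have tow : lbt (xr + c0 + i) (if e then hh y0 e j - 1 else hh y0 e j + 1) ∈ X.E := by
    by_cases hj : j = 0
    · have e1 : (if e then hh y0 e j - 1 else hh y0 e j + 1) = y0 := by
        subst hj
        cases e <;> simp [hh]
      rw [e1]
      have hc2 := G.c2
      have h5 := L.fam.mem (.inl (⟨(c0 + i.toNat : ℕ), by omega⟩ : Fin N))
      have e2 : Pool.Agent.H30.W.lbE N xr y0 l2 (.inl (⟨(c0 + i.toNat : ℕ), by omega⟩ : Fin N)) =
          lbt (xr + c0 + i) y0 := by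
        change lbt (xr + ((c0 + i.toNat : ℕ) : ℤ)) y0 = _
        congr 1
        omega
      rw [e2] at h5
      exact h5
    · have h5 := key i (j - 1) (by omega) (by omega) (by omega) (by omega)
      have e1 : (if e then hh y0 e j - 1 else hh y0 e j + 1) = hh y0 e (j - 1) := by
        cases e
        · simp only [hh, Bool.false_eq_true, if_false]; ring
        · simp only [hh, if_true]; ring
      rw [e1]; exact h5
  have away : lbt (xr + c0 + i) (if e then hh y0 e j + 1 else hh y0 e j - 1) ∈ X.E := by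
    have h5 := key i (j + 1) (by omega) (by omega) (by omega) (by omega)
    have e1 : (if e then hh y0 e j + 1 else hh y0 e j - 1) = hh y0 e (j + 1) := by
      cases e
      · simp only [hh, Bool.false_eq_true, if_false]; ring
      · simp only [hh, if_true]; ring
    rw [e1]; exact h5
  intro d
  cases d
  · -- W
    change lbt (xr + c0 + i - 1) (hh y0 e j) ∈ X.E
    have h5 := key (i - 1) j (by omega) (by omega) (by omega) (by omega)
    rw [← add_sub_assoc] at h5
    exact h5
  · -- N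
    change lbt (xr + c0 + i) (hh y0 e j + 1) ∈ X.E
    cases e
    · simpa using tow
    · simpa using away
  · -- E
    change lbt (xr + c0 + i + 1) (hh y0 e j) ∈ X.E
    have h5 := key (i + 1) j (by omega) (by omega) (by omega) (by omega)
    rw [← add_assoc] at h5
    exact h5
  · -- S
    change lbt (xr + c0 + i) (hh y0 e j - 1) ∈ X.E
    cases e
    · simpa using away
    · simpa using tow

/-- label of a tile of the half box -/
lemma TSh (L : LayE X N xr y0 l2 EL EU) (G : GBox EL EU N xr y0 c0 w h) (dflt : TI X) {e : Bool}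
    {i j : ℕ} (hi : i < w) (hj : j < h) :
    (Th (TS X dflt (xr + c0) y0 h) h e i j).1 =
      lbt (xr + c0 + i) (hh y0 e (if e then (j : ℤ) else h - 1 - j)) := by
  cases e
  · have h5 := half_mem L G (e := false) (i := i) (j := (h : ℤ) - 1 - j) (by omega) (by omega)
      (by omega) (by omega)
    simp only [Bool.false_eq_true, if_false] at h5
    have e1 : y0 - 1 - ((h : ℤ) - 1 - j) = y0 - h + j := by ring
    rw [e1] at h5
    have e2 : tl (xr + c0) y0 h i j = lbt (xr + c0 + i) (y0 - h + j) := by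
      unfold tl hgt; rw [if_pos (by omega)]
    change (TS X dflt (xr + c0) y0 h i j).1 = _
    rw [TS_eq (by rw [e2]; exact subE L (mem_union_left _ h5))]
    change tl (xr + c0) y0 h i j = _
    rw [e2]
    simp only [hh, Bool.false_eq_true, if_false]
    rw [e1]
  · have h5 := half_mem L G (e := true) (i := i) (j := j) (by omega) (by omega)
      (by omega) (by omega)
    simp only [if_true] at h5
    have e2 : tl (xr + c0) y0 h i ((h + j : ℕ) : ℤ) = lbt (xr + c0 + i) (y0 + 1 + j) := by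
      unfold tl hgt
      rw [if_neg (by push_cast; omega)]
      congr 1
      push_cast
      ring
    change (TS X dflt (xr + c0) y0 h i (h + j)).1 = _
    rw [TS_eq (by rw [e2]; exact subE L (mem_union_right _ h5))]
    change tl (xr + c0) y0 h i ((h + j : ℕ) : ℤ) = _
    rw [e2]
    simp only [hh, if_true]

/-- the first position -/
lemma same_psn (L : LayE X N xr y0 l2 EL EU) (G : GBox EL EU N xr y0 c0 w h) (dflt : TI X) {e : Bool}
    {c : ℕ} (hc : c < w) :
    Same (psn (TS X dflt (xr + c0) y0 h) h c e) (z0 xr y0 e (c0 + c)) := by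
  have h0 := G.h0
  cases e
  · have h5 := TSh L G dflt (e := false) hc (j := h - 1) (by omega)
    refine ⟨?_, rfl⟩
    change (TS X dflt (xr + c0) y0 h c (h - 1)).1 = lbt (xr + ((c0 + c : ℕ) : ℤ)) (y0 - 1)
    change (TS X dflt (xr + c0) y0 h c (h - 1)).1 = _ at h5
    rw [h5]
    simp only [hh, Bool.false_eq_true, if_false]
    congr 1
    · push_cast; ring
    · omega
  · have h5 := TSh L G dflt (e := true) hc (j := 0) (by omega)
    refine ⟨?_, rfl⟩
    change (TS X dflt (xr + c0) y0 h c h).1 = lbt (xr + ((c0 + c : ℕ) : ℤ)) (y0 + 1)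
    change (TS X dflt (xr + c0) y0 h c (h + 0)).1 = _ at h5
    rw [add_zero] at h5
    rw [h5]
    simp only [hh, if_true]
    congr 1
    · push_cast; ring
    · push_cast; ring

/-- **A path in the half box is a walk near the row.** -/
theorem pth_wk (L : LayE X N xr y0 l2 EL EU) (G : GBox EL EU N xr y0 c0 w h) (dflt : TI X)
    (x y : TI X × Dir) {M : ℕ} {τ : Fin M → TI X} {cl : ℕ → Fin M}
    (hτ : ∀ i < w, (τ (cl i)).1 = lbt (xr + ((c0 + i : ℕ) : ℤ)) y0) {e : Bool} {c c' : ℕ} (hc : c < w)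
    (hc' : c' < w) (hp : PthE (netS X x y) (stt lbS pS (ug EL EU (1, -1) ζ)) τ w h cl
      (TS X dflt (xr + c0) y0 h) e c c') :
    ∃ n, WK (ug EL EU (1, -1) ζ) xr y0 e (fun u => lbt u.1 u.2 ∈ (if e then EU else EL) ∧
      xr ≤ u.1 ∧ u.1 < xr + N) (c0 + c) n (zr0 xr y0 e (c0 + c')) := by
  have hc2 := G.c2
  obtain ⟨t, n, h1, h2, -⟩ := hp
  -- the tiles of the half box
  have hR : ∀ z ∈ Bx' (Th (TS X dflt (xr + c0) y0 h) h e) w 0 h, ∀ u : (ℤ × ℤ) × Dir, Same z u →
      ∃ i j : ℤ, 0 ≤ i ∧ i < w ∧ 0 ≤ j ∧ j < h ∧ u.1 = (xr + c0 + i, hh y0 e j) := by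
    rintro z ⟨i, hi, j, -, hj, e1⟩ u hu
    have h3 := TSh L G dflt (e := e) hi hj
    rw [← e1, hu.1] at h3
    obtain ⟨a1, a2⟩ := lbt_inj h3
    refine ⟨i, if e then (j : ℤ) else h - 1 - j, by omega, by omega, ?_, ?_, Prod.ext a1 a2⟩
    · split_ifs <;> omega
    · split_ifs <;> omega
  have key := same_iter x y (same_psn L G dflt hc) (fun z hz u hu => by
    obtain ⟨i, j, g1, g2, g3, g4, g5⟩ := hR z hz u hu
    rw [g5]; exact half_nb L G g1 g2 g3 g4) h2
  refine ⟨n, ?_, ?_⟩
  · have h3 := key n le_rfl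
    rw [h1] at h3
    obtain ⟨a1, a2⟩ := h3
    simp only at a1 a2
    rw [hτ c' hc'] at a1
    obtain ⟨b1, b2⟩ := lbt_inj a1
    have e1 : (uf (ug EL EU (1, -1) ζ))^[n] (z0 xr y0 e (c0 + c)) =
        ((xr + ((c0 + c' : ℕ) : ℤ), y0), sd e) :=
      Prod.ext (Prod.ext b1.symm b2.symm) a2.symm
    rw [e1]
    cases e <;> rfl
  · intro i hi
    obtain ⟨i', j, g1, g2, g3, g4, g5⟩ := hR _ (h2 i hi) _ (key i hi.le)
    rw [g5]
    refine ⟨?_, ?_, ?_⟩
    · have := half_mem L G (e := e) (i := i') (j := j) (by omega) (by omega) (by omega) (by omega)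
      exact this
    · simp only; omega
    · simp only; omega

/-- the relation `WrZ` -/
theorem pth_wrz (L : LayE X N xr y0 l2 EL EU) (G : GBox EL EU N xr y0 c0 w h) (dflt : TI X)
    (x y : TI X × Dir) {M : ℕ} {τ : Fin M → TI X} {cl : ℕ → Fin M}
    (hτ : ∀ i < w, (τ (cl i)).1 = lbt (xr + ((c0 + i : ℕ) : ℤ)) y0) (hN : 0 < N) {e : Bool} {c c' : ℕ}
    (hc : c < w) (hc' : c' < w) (hp : PthE (netS X x y) (stt lbS pS (ug EL EU (1, -1) ζ)) τ w h cl
      (TS X dflt (xr + c0) y0 h) e c c') :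
    Pool.Agent.H81.W.WrZ xr y0 EL EU ζ e (clS N c0 hN c) (clS N c0 hN c') := by
  have hc2 := G.c2
  have clv : ∀ i < w, ((clS N c0 hN i : Fin N) : ℕ) = c0 + i := by
    intro i hi
    unfold clS
    simp only
    exact Nat.mod_eq_of_lt (by omega)
  obtain ⟨n, hn⟩ := pth_wk L G dflt x y hτ hc hc' hp
  refine ⟨n, ?_⟩
  rw [clv c hc, clv c' hc']
  exact ⟨hn.tgt, fun i hi => (hn.mem i hi).1⟩

end box

end Pool.Agent.H98.W.B6
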